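import Mathlib.GroupTheory.CoprodI
import Mathlib.GroupTheory.PresentedGroup
import Mathlib.Algebra.Ring.Parity
import Mathlib.Algebra.Order.Field.Rat
import Mathlib.Tactic

/-!
# The Manturov group `G^2_4` contains a free group of rank two
-/

namespace Pool.Agent.Results.MP_18aa7e_al.FreeSubgroup

/-- The six generators of `G^2_4`: `a = a₁₂`, `b = a₁₃`, `c = a₁₄`, `d = a₂₃`, `e = a₂₄`,
`f = a₃₄`. -/
inductive Gen
  | a | b | c | d | e | f

/-- The free generator attached to a letter. -/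
abbrev g (x : Gen) : FreeGroup Gen := FreeGroup.of x

/-- The three relations `xyz = zyx`, `yxz = zxy`, `xzy = yzx` of one triangle, written as
relators. -/
def tri (x y z : Gen) : Set (FreeGroup Gen) :=
  {g x * g y * g z * (g z * g y * g x)⁻¹,
   g y * g x * g z * (g z * g x * g y)⁻¹,
   g x * g z * g y * (g y * g z * g x)⁻¹}

/-- The defining relators of `G^2_4`. -/
def rels : Set (FreeGroup Gen) :=
  {r | ∃ x : Gen, r = g x * g x} ∪
  {g Gen.a * g Gen.f * (g Gen.f * g Gen.a)⁻¹,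
   g Gen.b * g Gen.e * (g Gen.e * g Gen.b)⁻¹,
   g Gen.c * g Gen.d * (g Gen.d * g Gen.c)⁻¹} ∪
  tri Gen.a Gen.b Gen.d ∪ tri Gen.a Gen.c Gen.e ∪ tri Gen.b Gen.c Gen.f ∪ tri Gen.d Gen.e Gen.f

/-- The group `G^2_4`. -/
abbrev G24 : Type := PresentedGroup rels

/-! ### An action on the rationals with odd numerator and denominator -/

/-- Quotients of odd integers. -/
def O : Set ℚ := {x | ∃ p q : ℤ, Odd p ∧ Odd q ∧ x = p / q}

lemma odd_ne_zero {q : ℤ} (h : Odd q) : (q : ℚ) ≠ 0 := by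
  intro h0
  have : q = 0 := by exact_mod_cast h0
  subst this
  exact absurd h (by decide)

lemma O_ne_zero {x : ℚ} (hx : x ∈ O) : x ≠ 0 := by
  obtain ⟨p, q, hp, hq, rfl⟩ := hx
  exact div_ne_zero (odd_ne_zero hp) (odd_ne_zero hq)

/-- `x ↦ -x`. -/
def fb (x : O) : O := ⟨-x.1, by
  obtain ⟨p, q, hp, hq, h⟩ := x.2
  exact ⟨-p, q, hp.neg, hq, by rw [h]; push_cast; ring⟩⟩

/-- `x ↦ 1/x`. -/
def fd (x : O) : O := ⟨(x.1)⁻¹, by
  obtain ⟨p, q, hp, hq, h⟩ := x.2
  exact ⟨q, p, hq, hp, by rw [h, inv_div]⟩⟩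

/-- `x ↦ 2 - x`. -/
def ff (x : O) : O := ⟨2 - x.1, by
  obtain ⟨p, q, hp, hq, h⟩ := x.2
  have hq0 := odd_ne_zero hq
  refine ⟨2 * q - p, q, ?_, hq, ?_⟩
  · exact (even_two_mul q).sub_odd hp
  · rw [h]; push_cast; field_simp⟩

lemma fb_inv : Function.Involutive fb := fun x => Subtype.ext (by simp [fb])
lemma fd_inv : Function.Involutive fd := fun x => Subtype.ext (by simp [fd])
lemma ff_inv : Function.Involutive ff := fun x => Subtype.ext (by simp [ff])

/-- The permutation `x ↦ -x`. -/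
def B : Equiv.Perm O := fb_inv.toPerm
/-- The permutation `x ↦ 1/x`. -/
def D : Equiv.Perm O := fd_inv.toPerm
/-- The permutation `x ↦ 2 - x`. -/
def F : Equiv.Perm O := ff_inv.toPerm

lemma B_sq : B * B = 1 := by ext x; simp [B, fb]
lemma D_sq : D * D = 1 := by ext x; simp [D, fd]
lemma F_sq : F * F = 1 := by ext x; simp [F, ff]
lemma BD : B * D = D * B := by ext x; simp [B, D, fb, fd, inv_neg]

/-- The images of the generators. -/
def im : Gen → Equiv.Perm O
  | Gen.a => 1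
  | Gen.b => B
  | Gen.c => B
  | Gen.d => D
  | Gen.e => D
  | Gen.f => F

lemma im_rels : ∀ r ∈ rels, FreeGroup.lift im r = 1 := by
  intro r hr
  have key : ∀ x y : Equiv.Perm O, x = y → x * y⁻¹ = 1 := fun x y h => by rw [h, mul_inv_cancel]
  simp only [rels, tri, Set.mem_union, Set.mem_ofPred_eq, Set.mem_insert_iff,
    Set.mem_singleton_iff] at hr
  rcases hr with ((((⟨x, rfl⟩ | h) | h) | h) | h) | h
  · rcases x with _ | _ | _ | _ | _ | _ <;> simp [im, B_sq, D_sq, F_sq]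
  · rcases h with rfl | rfl | rfl
    · simp [im]
    · simpa [im] using key _ _ BD
    · simpa [im] using key _ _ BD
  · rcases h with rfl | rfl | rfl
    · simpa [im] using key _ _ BD
    · simpa [im] using key _ _ BD
    · simpa [im] using key _ _ BD.symm
  · rcases h with rfl | rfl | rfl
    · simpa [im] using key _ _ BD
    · simpa [im] using key _ _ BD
    · simpa [im] using key _ _ BD.symm
  · rcases h with rfl | rfl | rfl
    · simp only [map_mul, map_inv, FreeGroup.lift_apply_of, im]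
      exact key _ _ (by rw [B_sq, mul_assoc, B_sq]; simp)
    · simp only [map_mul, map_inv, FreeGroup.lift_apply_of, im]
      exact key _ _ (by rw [B_sq, mul_assoc, B_sq]; simp)
    · simp only [map_mul, map_inv, FreeGroup.lift_apply_of, im]
      exact key _ _ rfl
  · rcases h with rfl | rfl | rfl
    · simp only [map_mul, map_inv, FreeGroup.lift_apply_of, im]
      exact key _ _ (by rw [D_sq, mul_assoc, D_sq]; simp)
    · simp only [map_mul, map_inv, FreeGroup.lift_apply_of, im]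
      exact key _ _ (by rw [D_sq, mul_assoc, D_sq]; simp)
    · simp only [map_mul, map_inv, FreeGroup.lift_apply_of, im]
      exact key _ _ rfl

/-- The action of `G^2_4` on `O`. -/
def act : G24 →* Equiv.Perm O := PresentedGroup.toGroup im_rels

/-- The two elements generating a free group. -/
def u : Fin 2 → G24
  | 0 => PresentedGroup.of Gen.f * PresentedGroup.of Gen.b
  | 1 => PresentedGroup.of Gen.d * PresentedGroup.of Gen.f * PresentedGroup.of Gen.b *
      PresentedGroup.of Gen.d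

/-- Their images. -/
def v : Fin 2 → Equiv.Perm O
  | 0 => F * B
  | 1 => D * F * B * D

lemma act_u (i : Fin 2) : act (u i) = v i := by
  fin_cases i
  · simp [u, v, act, PresentedGroup.toGroup.of, im]
  · simp [u, v, act, PresentedGroup.toGroup.of, im]

lemma v0 (x : O) : ((v 0 x : O) : ℚ) = x + 2 := by
  simp [v, F, B, ff, fb]; ring

lemma v1 (x : O) : ((v 1 x : O) : ℚ)⁻¹ = (x : ℚ)⁻¹ + 2 := by
  simp [v, F, B, D, ff, fb, fd]; ring

lemma v0_inv (x : O) : (((v 0)⁻¹ x : O) : ℚ) = x - 2 := by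
  have h := v0 ((v 0)⁻¹ x)
  have h2 : (v 0) ((v 0)⁻¹ x) = x := (v 0).apply_symm_apply x
  rw [h2] at h
  linarith

lemma v1_inv (x : O) : (((v 1)⁻¹ x : O) : ℚ)⁻¹ = (x : ℚ)⁻¹ - 2 := by
  have h := v1 ((v 1)⁻¹ x)
  have h2 : (v 1) ((v 1)⁻¹ x) = x := (v 1).apply_symm_apply x
  rw [h2] at h
  linarith

/-- Attracting sets. -/
def X : Fin 2 → Set O
  | 0 => {x | 1 < (x : ℚ)}
  | 1 => {x | 1 ≤ (x : ℚ)⁻¹}

/-- Repelling sets. -/
def Y : Fin 2 → Set O
  | 0 => {x | (x : ℚ) ≤ -1}
  | 1 => {x | (x : ℚ)⁻¹ < -1}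

lemma inv_facts (x : O) : ((x : ℚ) * (x : ℚ)⁻¹ = 1) := mul_inv_cancel₀ (O_ne_zero x.2)

lemma disj0 (x : O) (h1 : 1 < (x : ℚ)) (h2 : 1 ≤ (x : ℚ)⁻¹) : False := by
  have := inv_facts x; nlinarith
lemma disj1 (x : O) (h1 : (x : ℚ) ≤ -1) (h2 : (x : ℚ)⁻¹ < -1) : False := by
  have := inv_facts x; nlinarith
lemma disj2 (x : O) (h1 : 1 < (x : ℚ)) (h2 : (x : ℚ)⁻¹ < -1) : False := by
  have := inv_facts x; nlinarith
lemma disj3 (x : O) (h1 : 1 ≤ (x : ℚ)⁻¹) (h2 : (x : ℚ) ≤ -1) : False := by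
  have := inv_facts x; nlinarith

lemma one_mem_O : (1 : ℚ) ∈ O := ⟨1, 1, odd_one, odd_one, by simp⟩
lemma three_mem_O : (3 : ℚ) ∈ O := ⟨3, 1, by decide, odd_one, by simp⟩

theorem inj_v : Function.Injective (FreeGroup.lift v) := by
  apply FreeGroup.injective_lift_of_ping_pong v X Y
  · intro i
    fin_cases i
    · exact ⟨⟨3, three_mem_O⟩, by simp [X]⟩
    · exact ⟨⟨1, one_mem_O⟩, by simp [X]⟩
  · intro i j hij
    rw [Function.onFun, Set.disjoint_left]
    fin_cases i <;> fin_cases j <;> simp [X] at hij ⊢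
    · intro x hx h1; by_contra h; exact disj0 ⟨x, hx⟩ h1 (not_lt.mp h)
    · intro x hx h1; by_contra h; exact disj0 ⟨x, hx⟩ (not_le.mp h) h1
  · intro i j hij
    rw [Function.onFun, Set.disjoint_left]
    fin_cases i <;> fin_cases j <;> simp [Y] at hij ⊢
    · intro x hx h1; by_contra h; exact disj1 ⟨x, hx⟩ h1 (not_le.mp h)
    · intro x hx h1; by_contra h; exact disj1 ⟨x, hx⟩ (not_lt.mp h) h1
  · intro i j
    rw [Set.disjoint_left]
    fin_cases i <;> fin_cases j <;> simp [X, Y]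
    · intro x hx h1; linarith
    · intro x hx h1; by_contra h; exact disj2 ⟨x, hx⟩ h1 (not_le.mp h)
    · intro x hx h1; by_contra h; exact disj3 ⟨x, hx⟩ h1 (not_lt.mp h)
    · intro x hx h1; linarith
  · intro i
    fin_cases i
    · rintro _ ⟨x, hx, rfl⟩
      change 1 < ((v 0 x : O) : ℚ)
      rw [v0]
      have : ¬ ((x : ℚ) ≤ -1) := hx
      linarith
    · rintro _ ⟨x, hx, rfl⟩
      change 1 ≤ ((v 1 x : O) : ℚ)⁻¹
      rw [v1]
      have : ¬ ((x : ℚ)⁻¹ < -1) := hx
      linarith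
  · intro i
    fin_cases i
    · rintro _ ⟨x, hx, rfl⟩
      change (((v 0)⁻¹ x : O) : ℚ) ≤ -1
      rw [v0_inv]
      have : ¬ (1 < (x : ℚ)) := hx
      linarith
    · rintro _ ⟨x, hx, rfl⟩
      change (((v 1)⁻¹ x : O) : ℚ)⁻¹ < -1
      rw [v1_inv]
      have : ¬ (1 ≤ (x : ℚ)⁻¹) := hx
      linarith

/-- The group `G^2_4` has a subgroup that is free of rank two. -/
theorem result : ∃ H : Subgroup G24, Nonempty (H ≃* FreeGroup (Fin 2)) := by
  have hcomp : act.comp (FreeGroup.lift u) = FreeGroup.lift v := by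
    ext i
    simp [act_u]
  have hinj : Function.Injective (FreeGroup.lift u) := by
    have h : Function.Injective (act.comp (FreeGroup.lift u)) := by
      rw [hcomp]; exact inj_v
    exact Function.Injective.of_comp h
  exact ⟨(FreeGroup.lift u).range, ⟨((FreeGroup.lift u).ofInjective hinj).symm⟩⟩

end Pool.Agent.Results.MP_18aa7e_al.FreeSubgroup
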